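import Mathlib

set_option autoImplicit false

/-! Project NW (MP_70f7a7_an): nonwandering momenta in the N-body problem. Definitions. -/

namespace Pool.Agent.Y516.NW

open MeasureTheory

/-- space -/
abbrev E3 := EuclideanSpace ℝ (Fin 3)

/-- positions (or momenta, or velocities) of `N` bodies -/
abbrev Cfg (N : ℕ) := Fin N → E3

/-- the energy surface of the reduced system -/
def Surf {N : ℕ} (m : Fin N → ℝ) (E : ℝ) : Set (Cfg N × Cfg N) :=
  {x | (∀ i j, i ≠ j → x.1 i ≠ x.1 j) ∧ ∑ i, m i • x.1 i = 0 ∧ ∑ i, x.2 i = 0 ∧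
    ∑ i, ‖x.2 i‖ ^ 2 / (2 * m i) - ∑ i, ∑ j, m i * m j / ‖x.1 i - x.1 j‖ / 2 = E}

/-- unordered pair different from `{a, b}` -/
abbrev P2 {N : ℕ} (a b i j : Fin N) : Prop := i ≠ j ∧ ¬(i = a ∧ j = b) ∧ ¬(i = b ∧ j = a)

/-- the bodies `a`, `b` are replaced by their mean -/
noncomputable def cm {N : ℕ} (m : Fin N → ℝ) (a b : Fin N) (u : Cfg N) (i : Fin N) : E3 :=
  if i = a ∨ i = b then (m a + m b)⁻¹ • (m a • u a + m b • u b) else u i

/-- accelerations -/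
noncomputable def acc {N : ℕ} (m : Fin N → ℝ) (q : Cfg N) (i : Fin N) : E3 :=
  ∑ j, (m j / ‖q j - q i‖ ^ 3) • (q j - q i)

/-- Gram determinant -/
noncomputable def gr (X V : E3) : ℝ := ‖X‖ ^ 2 * ‖V‖ ^ 2 - (inner ℝ X V) ^ 2

end Pool.Agent.Y516.NW
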