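import Pool.Agent.Y516.NW.StmPos
import Pool.Agent.Y407.NW.Cyl
import Pool.Agent.Y407.NW.Push
import Pool.Agent.Y421.NW.Acc
import Pool.Agent.Y421.NW.Ener
import Pool.Agent.Y421.NW.Line
import Pool.Agent.Y275.NW.Boot
import Pool.Agent.Y317.NW.Ball

set_option autoImplicit false

/-! Project NW: the proportion of nonwandering momenta. -/

namespace Pool.Agent.Y516.NW

open MeasureTheory Set

/-- kinetic energy -/
noncomputable def kin {N : ℕ} (m : Fin N → ℝ) (p : Cfg N) : ℝ := ∑ i, ‖p i‖ ^ 2 / (2 * m i)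

/-- minus the potential energy -/
noncomputable def pot {N : ℕ} (m : Fin N → ℝ) (q : Cfg N) : ℝ :=
  ∑ i, ∑ j, m i * m j / ‖q i - q j‖ / 2

theorem slab {n : ℕ} (V : (Fin n → E3) →ₗ[ℝ] E3) (hV : Function.Surjective V) (R : ℝ)
    (hR : 0 < R) :
    ∃ C : ℝ, 0 ≤ C ∧ ∀ X : E3, X ≠ 0 → ∀ t : ℝ, 0 ≤ t →
      volume {P : Fin n → E3 | ‖P‖ ≤ R ∧ gr X (V P) < t * ‖X‖ ^ 2} ≤ ENNReal.ofReal (C * t) := by
  obtain ⟨C1, hC1, h1⟩ := Pool.Agent.Y407.NW.push n V hV R
  set L := LinearMap.toContinuousLinearMap V with hL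
  obtain ⟨C2, hC2, h2⟩ := Pool.Agent.Y407.NW.cyl (‖L‖ * R + 1) (by positivity)
  refine ⟨C1 * C2, mul_nonneg hC1 hC2, fun X hX t ht => ?_⟩
  have h3 := h1 {v : E3 | ‖v‖ ≤ ‖L‖ * R + 1 ∧ gr X v < t * ‖X‖ ^ 2}
  refine (measure_mono ?_).trans (h3.trans ?_)
  · rintro P ⟨hP1, hP2⟩
    refine ⟨hP1, ?_, hP2⟩
    have h4 : ‖L P‖ ≤ ‖L‖ * ‖P‖ := L.le_opNorm P
    have h5 : ‖L‖ * ‖P‖ ≤ ‖L‖ * R := by gcongr
    have h6 : L P = V P := rfl
    rw [h6] at h4
    linarith
  · rw [mul_assoc, ENNReal.ofReal_mul hC1]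
    gcongr
    exact h2 X hX t ht

theorem gr_smul (X V : E3) (s : ℝ) : gr X (s • V) = s ^ 2 * gr X V := by
  unfold gr
  rw [norm_smul, inner_smul_right, Real.norm_eq_abs, mul_pow, sq_abs]; ring

theorem mom_sum {n : ℕ} (P : Fin n → E3) : ∑ i, mom P i = 0 := by
  unfold mom
  rw [Fin.sum_univ_castSucc]
  simp

theorem exists_P2 {n : ℕ} (hn : 2 ≤ n) (a b : Fin (n + 1)) : ∃ c, P2 a b a c := by
  by_contra hcon
  push Not at hcon
  have h1 : ∀ c : Fin (n + 1), c ∈ ({a, b} : Finset (Fin (n + 1))) := by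
    intro c
    by_contra hc
    simp only [Finset.mem_insert, Finset.mem_singleton, not_or] at hc
    exact hcon c ⟨fun h => hc.1 h.symm, fun h => hc.2 h.2, fun h => hc.1 h.2⟩
  have h2 : (Finset.univ : Finset (Fin (n + 1))) ⊆ {a, b} := fun c _ => h1 c
  have h3 := Finset.card_le_card h2
  have h4 : ({a, b} : Finset (Fin (n + 1))).card ≤ 2 := Finset.card_le_two
  simp only [Finset.card_univ, Fintype.card_fin] at h3
  omega

theorem prop_neg (n : ℕ) (hn : 2 ≤ n) (m : Fin (n + 1) → ℝ) (hm : ∀ i, 0 < m i) :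
    ∃ C : ℝ, 0 < C ∧ ∀ E : ℝ, E ≤ 0 →
      ∀ (ψ : Cfg (n + 1) × Cfg (n + 1) → ℝ)
        (φ : ℝ → Cfg (n + 1) × Cfg (n + 1) → Cfg (n + 1) × Cfg (n + 1)), IsFl m E ψ φ →
      ∀ q : Cfg (n + 1), (∀ i j, i ≠ j → q i ≠ q j) → ∑ i, m i • q i = 0 →
      ∀ a b : Fin (n + 1), a ≠ b → ∀ δ : ℝ, 0 < δ → (∀ i j, P2 a b i j → δ ≤ ‖q i - q j‖) →
      0 < pot m q + E →
      volume {P : Fin n → E3 | kin m (mom P) ≤ 1 ∧ NonW (Surf m E) φ
          (q, Real.sqrt ((pot m q + E) / kin m (mom P)) • mom P)} ≤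
        ENNReal.ofReal (C / (δ * (pot m q + E))) *
          volume {P : Fin n → E3 | kin m (mom P) ≤ 1} := by
  obtain ⟨μ, hμ, hμm⟩ : ∃ μ : ℝ, 0 < μ ∧ ∀ i, μ ≤ m i := by
    obtain ⟨μi, _, hμi⟩ := Finset.exists_min_image Finset.univ m ⟨0, Finset.mem_univ _⟩
    exact ⟨m μi, hm μi, fun i => hμi i (Finset.mem_univ _)⟩
  obtain ⟨M, hMdef⟩ : ∃ M : ℝ, M = ∑ i, m i := ⟨_, rfl⟩
  have hM : 0 < M := by
    rw [hMdef]; exact Finset.sum_pos (fun i _ => hm i) ⟨0, Finset.mem_univ _⟩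
  obtain ⟨R, hR, hRb, hvol⟩ := Pool.Agent.Y317.NW.ball n m hm
  -- constants of the slabs
  have hch : ∀ a b i j : Fin (n + 1), ∃ C : ℝ, 0 ≤ C ∧ (a ≠ b → P2 a b i j →
      ∀ X : E3, X ≠ 0 → ∀ t : ℝ, 0 ≤ t →
        volume {P : Fin n → E3 | ‖P‖ ≤ R ∧ gr X (cm m a b (fun k => (m k)⁻¹ • mom P k) i
          - cm m a b (fun k => (m k)⁻¹ • mom P k) j) < t * ‖X‖ ^ 2}
          ≤ ENNReal.ofReal (C * t)) := by
    intro a b i j
    by_cases hab : a ≠ b ∧ P2 a b i j
    · obtain ⟨V, hV, hVe⟩ := Pool.Agent.Y275.NW.surj n m hm a b hab.1 i j hab.2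
      obtain ⟨C, hC, h⟩ := slab V hV R hR
      refine ⟨C, hC, fun _ _ X hX t ht => ?_⟩
      have := h X hX t ht
      simpa only [hVe] using this
    · exact ⟨0, le_rfl, fun h1 h2 => absurd ⟨h1, h2⟩ hab⟩
  choose Cf hCf0 hCf using hch
  obtain ⟨Cs, hCs0, hCsle⟩ : ∃ Cs : ℝ, 0 ≤ Cs ∧ ∀ a b, ∑ i, ∑ j, Cf a b i j ≤ Cs := by
    refine ⟨∑ a, ∑ b, ∑ i, ∑ j, Cf a b i j, Finset.sum_nonneg fun a _ =>
      Finset.sum_nonneg fun b _ => Finset.sum_nonneg fun i _ => Finset.sum_nonneg fun j _ =>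
        hCf0 a b i j, fun a b => ?_⟩
    have e2 : ∑ i, ∑ j, Cf a b i j ≤ ∑ b', ∑ i, ∑ j, Cf a b' i j :=
      Finset.single_le_sum (f := fun b' => ∑ i, ∑ j, Cf a b' i j)
        (fun b' _ => Finset.sum_nonneg fun i _ => Finset.sum_nonneg fun j _ => hCf0 a b' i j)
        (Finset.mem_univ b)
    exact e2.trans (Finset.single_le_sum (f := fun a' => ∑ b', ∑ i, ∑ j, Cf a' b' i j)
        (fun a' _ => Finset.sum_nonneg fun b' _ => Finset.sum_nonneg fun i _ =>
          Finset.sum_nonneg fun j _ => hCf0 a' b' i j) (Finset.mem_univ a))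
  obtain ⟨v0, hv0pos, hv0le⟩ : ∃ v0 : ℝ, 0 < v0 ∧
      ENNReal.ofReal v0 ≤ volume {P : Fin n → E3 | kin m (mom P) ≤ 1} := by
    have hmin : min (volume {P : Fin n → E3 | kin m (mom P) ≤ 1}) 1 ≠ ⊤ :=
      ne_top_of_le_ne_top ENNReal.one_ne_top (min_le_right _ _)
    refine ⟨(min (volume {P : Fin n → E3 | kin m (mom P) ≤ 1}) 1).toReal, ?_, ?_⟩
    · exact ENNReal.toReal_pos (lt_min hvol one_pos).ne' hmin
    · rw [ENNReal.ofReal_toReal hmin]
      exact min_le_left _ _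
  obtain ⟨A, hA⟩ : ∃ A : ℝ, A = M + M ^ 2 / μ := ⟨_, rfl⟩
  have hApos : 0 < A := by
    rw [hA]; have : 0 ≤ M ^ 2 / μ := div_nonneg (sq_nonneg _) hμ.le
    linarith
  have hCpos0 : 0 ≤ 16000 * A * Cs / v0 :=
    div_nonneg (mul_nonneg (mul_nonneg (by norm_num) hApos.le) hCs0) hv0pos.le
  have hCpos : 0 < 16000 * A * Cs / v0 + 256 * M ^ 2 + 1 := by
    have : 0 ≤ 256 * M ^ 2 := mul_nonneg (by norm_num) (sq_nonneg _)
    linarith
  refine ⟨16000 * A * Cs / v0 + 256 * M ^ 2 + 1, hCpos, ?_⟩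
  intro E hE ψ φ hφ q hq hcen a b hab δ hδ hδq hK
  obtain ⟨K, hKdef⟩ : ∃ K : ℝ, K = pot m q + E := ⟨_, rfl⟩
  obtain ⟨C, hC⟩ : ∃ C : ℝ, C = 16000 * A * Cs / v0 + 256 * M ^ 2 + 1 := ⟨_, rfl⟩
  rw [← hC] at hCpos ⊢
  rw [← hKdef] at hK ⊢
  by_cases hbig : δ * K < 256 * M ^ 2
  · -- trivial bound
    refine (measure_mono (fun P hP => hP.1)).trans ?_
    have h1 : 1 ≤ C / (δ * K) := by
      rw [le_div_iff₀ (by positivity)]
      linarith
    calc volume {P : Fin n → E3 | kin m (mom P) ≤ 1}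
        = 1 * volume {P : Fin n → E3 | kin m (mom P) ≤ 1} := (one_mul _).symm
      _ ≤ _ := by
          gcongr
          rw [← ENNReal.ofReal_one]
          exact ENNReal.ofReal_le_ofReal h1
  push Not at hbig
  -- the tight pair
  have hab0 : 0 < ‖q a - q b‖ := norm_pos_iff.mpr (sub_ne_zero.mpr (hq a b hab))
  have hr : ‖q a - q b‖ ≤ δ / 128 := by
    have h1 := Pool.Agent.Y421.NW.pot (q := q) hm hab (d := 4 * δ) (by positivity)
      (fun i j h => by have := hδq i j h; linarith)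
    have h2 : pot m q = ∑ i, ∑ j, m i * m j / ‖q i - q j‖ / 2 := rfl
    rw [← h2, ← hMdef] at h1
    have h3 : 2 * M ^ 2 / (4 * δ) ≤ K / 512 := by
      rw [div_le_div_iff₀ (by positivity) (by norm_num)]
      nlinarith
    have h4 : K / 2 ≤ m a * m b / ‖q a - q b‖ := by
      have : K ≤ pot m q := by linarith
      linarith
    rw [le_div_iff₀ hab0] at h4
    have h5 : m a * m b ≤ M ^ 2 := by
      have e1 : m a ≤ M := hMdef ▸ Finset.single_le_sum (fun i _ => (hm i).le) (Finset.mem_univ a)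
      have e2 : m b ≤ M := hMdef ▸ Finset.single_le_sum (fun i _ => (hm i).le) (Finset.mem_univ b)
      have := mul_le_mul e1 e2 (hm b).le hM.le
      nlinarith
    -- K r <= 2 M^2, 256 M^2 <= δ K
    have h6 : K * ‖q a - q b‖ * 128 ≤ K * δ := by nlinarith
    have h7 : K * (‖q a - q b‖ * 128) ≤ K * δ := by linarith
    have := le_of_mul_le_mul_left h7 hK
    linarith
  have hXge : ∀ i j, P2 a b i j → δ / 2 ≤ ‖cm m a b q i - cm m a b q j‖ := by
    intro i j hP
    have e3 := near m hm a b q i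
    have e4 := near m hm a b q j
    have e5 := hδq i j hP
    have e6 : ‖q i - q j‖ ≤ ‖q i - cm m a b q i‖ + ‖cm m a b q i - cm m a b q j‖
        + ‖q j - cm m a b q j‖ := by
      have : q i - q j = (q i - cm m a b q i) + (cm m a b q i - cm m a b q j)
          + -(q j - cm m a b q j) := by abel
      calc ‖q i - q j‖ = ‖(q i - cm m a b q i) + (cm m a b q i - cm m a b q j)
          + -(q j - cm m a b q j)‖ := by rw [← this]
        _ ≤ ‖(q i - cm m a b q i) + (cm m a b q i - cm m a b q j)‖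
          + ‖-(q j - cm m a b q j)‖ := norm_add_le _ _
        _ ≤ _ := by rw [norm_neg]; gcongr; exact norm_add_le _ _
    linarith
  obtain ⟨w2, hw2⟩ : ∃ w2 : ℝ, w2 = 16000 * A / δ := ⟨_, rfl⟩
  have hw2pos : 0 < w2 := by rw [hw2]; positivity
  obtain ⟨t, ht⟩ : ∃ t : ℝ, t = w2 / K := ⟨_, rfl⟩
  have htpos : 0 < t := by rw [ht]; positivity
  -- inclusion
  have hincl : {P : Fin n → E3 | kin m (mom P) ≤ 1 ∧ NonW (Surf m E) φ
      (q, Real.sqrt (K / kin m (mom P)) • mom P)} ⊆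
      ⋃ i : Fin (n + 1), ⋃ j : Fin (n + 1), {P | P2 a b i j ∧ ‖P‖ ≤ R ∧
        gr (cm m a b q i - cm m a b q j) (cm m a b (fun k => (m k)⁻¹ • mom P k) i
          - cm m a b (fun k => (m k)⁻¹ • mom P k) j) <
          t * ‖cm m a b q i - cm m a b q j‖ ^ 2} := by
    rintro P ⟨hP1, hP2⟩
    by_contra hcon
    simp only [mem_iUnion, not_exists] at hcon
    have hgood : ∀ i j, P2 a b i j → t * ‖cm m a b q i - cm m a b q j‖ ^ 2 ≤
        gr (cm m a b q i - cm m a b q j) (cm m a b (fun k => (m k)⁻¹ • mom P k) i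
          - cm m a b (fun k => (m k)⁻¹ • mom P k) j) := by
      intro i j hP
      by_contra hlt
      push Not at hlt
      exact hcon i j ⟨hP, hRb P hP1, hlt⟩
    obtain ⟨c, hac⟩ := exists_P2 hn a b
    have hXac : 0 < ‖cm m a b q a - cm m a b q c‖ := by
      have := hXge a c hac
      linarith
    have hkin0 : 0 ≤ kin m (mom P) := Finset.sum_nonneg fun i _ => by
      have := hm i; positivity
    have hkin : 0 < kin m (mom P) := by
      refine lt_of_le_of_ne hkin0 fun h0 => ?_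
      have hz : ∀ i, mom P i = 0 := by
        intro i
        have h1 := (Finset.sum_eq_zero_iff_of_nonneg (fun i _ => by
          have := hm i; positivity)).mp h0.symm i (Finset.mem_univ i)
        have h2 : ‖mom P i‖ ^ 2 = 0 := by
          rcases div_eq_zero_iff.mp h1 with h | h
          · exact h
          · have := hm i; linarith
        exact norm_eq_zero.mp (pow_eq_zero_iff (by norm_num) |>.mp h2)
      have h3 := hgood a c hac
      have h4 : (fun k => (m k)⁻¹ • mom P k) = fun _ => (0 : E3) := by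
        funext k; rw [hz k, smul_zero]
      have h5 : cm m a b (fun _ => (0 : E3)) a - cm m a b (fun _ => (0 : E3)) c = 0 := by
        unfold cm; simp
      rw [h4, h5] at h3
      have h6 : gr (cm m a b q a - cm m a b q c) 0 = 0 := by unfold gr; simp
      rw [h6] at h3
      have h7 : 0 < t * ‖cm m a b q a - cm m a b q c‖ ^ 2 := by positivity
      linarith
    obtain ⟨s, hs⟩ : ∃ s : ℝ, s = Real.sqrt (K / kin m (mom P)) := ⟨_, rfl⟩
    rw [← hs] at hP2
    have hs2 : s ^ 2 = K / kin m (mom P) := by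
      rw [hs]; exact Real.sq_sqrt (div_nonneg hK.le hkin.le)
    have hs2K : K ≤ s ^ 2 := by
      rw [hs2, le_div_iff₀ hkin]
      nlinarith
    have hvel : vel m (q, s • mom P) = fun k => s • ((m k)⁻¹ • mom P k) := by
      funext k
      simp only [vel, Pi.smul_apply]
      rw [smul_comm]
    have hsurf : (q, s • mom P) ∈ Surf m E := by
      refine ⟨hq, hcen, ?_, ?_⟩
      · have : ∑ i, (s • mom P) i = s • ∑ i, mom P i := by
          rw [Finset.smul_sum]; rfl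
        rw [this, mom_sum, smul_zero]
      · have h1 : ∑ i, ‖(s • mom P) i‖ ^ 2 / (2 * m i) = s ^ 2 * kin m (mom P) := by
          unfold kin
          rw [Finset.mul_sum]
          refine Finset.sum_congr rfl fun i _ => ?_
          rw [Pi.smul_apply, norm_smul, Real.norm_eq_abs, mul_pow, sq_abs]; ring
        show ∑ i, ‖(s • mom P) i‖ ^ 2 / (2 * m i) - pot m q = E
        rw [h1, hs2, div_mul_cancel₀ _ hkin.ne', hKdef]; ring
    refine wander Pool.Agent.Y275.NW.boot Pool.Agent.Y421.NW.accl Pool.Agent.Y421.NW.ener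
      Pool.Agent.Y421.NW.line Pool.Agent.Y275.NW.loc m M μ hμ hμm hMdef.ge a b hab E hE ψ φ hφ
      (q, s • mom P) hsurf a c hac (Real.sqrt w2) (δ / 2) (Real.sqrt_pos.mpr hw2pos)
      (by positivity) ?_ hXge ?_ (by show ‖q a - q b‖ ≤ δ / 2 / 64; linarith) hP2
    · rw [Real.sq_sqrt hw2pos.le, hw2, ← hA]
      have : 16000 * A / δ * (δ / 2) = 8000 * A := by field_simp; ring
      rw [this]
    · intro i j hP
      have h1 := hgood i j hP
      rw [Real.sq_sqrt hw2pos.le, hvel, cm_smul, cm_smul, ← smul_sub, gr_smul]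
      have h2 : w2 = K * t := by rw [ht]; field_simp
      have h3 : 0 ≤ t * ‖cm m a b q i - cm m a b q j‖ ^ 2 := by positivity
      calc w2 * ‖cm m a b q i - cm m a b q j‖ ^ 2
          = K * (t * ‖cm m a b q i - cm m a b q j‖ ^ 2) := by rw [h2]; ring
        _ ≤ s ^ 2 * (t * ‖cm m a b q i - cm m a b q j‖ ^ 2) := by gcongr
        _ ≤ _ := by gcongr
  refine (measure_mono hincl).trans ?_
  have hb : volume (⋃ i : Fin (n + 1), ⋃ j : Fin (n + 1), {P : Fin n → E3 | P2 a b i j ∧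
      ‖P‖ ≤ R ∧ gr (cm m a b q i - cm m a b q j) (cm m a b (fun k => (m k)⁻¹ • mom P k) i
          - cm m a b (fun k => (m k)⁻¹ • mom P k) j) <
          t * ‖cm m a b q i - cm m a b q j‖ ^ 2}) ≤
      ∑ i : Fin (n + 1), ∑ j : Fin (n + 1), ENNReal.ofReal (Cf a b i j * t) := by
    refine (measure_iUnion_fintype_le _ _).trans (Finset.sum_le_sum fun i _ =>
      (measure_iUnion_fintype_le _ _).trans (Finset.sum_le_sum fun j _ => ?_))
    by_cases hP : P2 a b i j
    · refine (measure_mono fun P hP' => hP'.2).trans (hCf a b i j hab hP _ ?_ t htpos.le)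
      have := hXge i j hP
      exact norm_pos_iff.mp (by linarith)
    · have : {P : Fin n → E3 | P2 a b i j ∧
        ‖P‖ ≤ R ∧ gr (cm m a b q i - cm m a b q j) (cm m a b (fun k => (m k)⁻¹ • mom P k) i
          - cm m a b (fun k => (m k)⁻¹ • mom P k) j) <
          t * ‖cm m a b q i - cm m a b q j‖ ^ 2} = ∅ := by
        ext P
        exact ⟨fun h => absurd h.1 hP, fun h => h.elim⟩
      rw [this, measure_empty]
      exact zero_le
  refine hb.trans ?_
  have hsum : ∑ i : Fin (n + 1), ∑ j : Fin (n + 1), ENNReal.ofReal (Cf a b i j * t)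
      ≤ ENNReal.ofReal (Cs * t) := by
    have e1 : ∀ i, ∑ j : Fin (n + 1), ENNReal.ofReal (Cf a b i j * t) =
        ENNReal.ofReal (∑ j, Cf a b i j * t) := fun i =>
      (ENNReal.ofReal_sum_of_nonneg fun j _ => mul_nonneg (hCf0 a b i j) htpos.le).symm
    simp only [e1]
    rw [← ENNReal.ofReal_sum_of_nonneg (fun i _ => Finset.sum_nonneg fun j _ =>
      mul_nonneg (hCf0 a b i j) htpos.le)]
    refine ENNReal.ofReal_le_ofReal ?_
    simp only [← Finset.sum_mul]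
    refine mul_le_mul_of_nonneg_right ?_ htpos.le
    exact hCsle a b
  refine hsum.trans ?_
  calc ENNReal.ofReal (Cs * t) ≤ ENNReal.ofReal (C / (δ * K) * v0) := by
        refine ENNReal.ofReal_le_ofReal ?_
        have h1 : Cs * t = (16000 * A * Cs / v0) / (δ * K) * v0 := by
          rw [ht, hw2]; field_simp
        rw [h1]
        gcongr
        have : 0 ≤ 256 * M ^ 2 := by positivity
        linarith
    _ = ENNReal.ofReal (C / (δ * K)) * ENNReal.ofReal v0 :=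
        ENNReal.ofReal_mul (by positivity)
    _ ≤ _ := by gcongr

end Pool.Agent.Y516.NW
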