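import Pool.Agent.Y516.NW.Stm

set_option autoImplicit false

/-! Project NW: the clusters move almost freely (bootstrap argument). -/

namespace Pool.Agent.Y516.NW

open MeasureTheory Set

variable {N : ℕ}

theorem cm_hasDerivAt (m : Fin N → ℝ) (a b : Fin N) (u : ℝ → Cfg N) (u' : Cfg N) (t : ℝ)
    (h : ∀ i, HasDerivAt (fun s => u s i) (u' i) t) (i : Fin N) :
    HasDerivAt (fun s => cm m a b (u s) i) (cm m a b u' i) t := by
  unfold cm
  split_ifs with hi
  · exact (((h a).const_smul (m a)).add ((h b).const_smul (m b))).const_smul ((m a + m b)⁻¹)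
  · exact h i

theorem cm_smul (m : Fin N → ℝ) (a b : Fin N) (c : ℝ) (u : Cfg N) (i : Fin N) :
    cm m a b (fun k => c • u k) i = c • cm m a b u i := by
  unfold cm
  split_ifs with hi
  · rw [smul_comm (m a) c, smul_comm (m b) c, ← smul_add, smul_comm]
  · rfl

theorem cm_ab (m : Fin N → ℝ) (a b : Fin N) (u : Cfg N) : cm m a b u b = cm m a b u a := by
  unfold cm; simp

theorem near (m : Fin N → ℝ) (hm : ∀ i, 0 < m i) (a b : Fin N) (q : Cfg N) (i : Fin N) :
    ‖q i - cm m a b q i‖ ≤ ‖q a - q b‖ := by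
  unfold cm
  have hs : 0 < m a + m b := add_pos (hm a) (hm b)
  split_ifs with hi
  · rcases hi with rfl | rfl
    · have : q i - (m i + m b)⁻¹ • (m i • q i + m b • q b)
          = ((m i + m b)⁻¹ * m b) • (q i - q b) := by
        have h1 : q i = ((m i + m b)⁻¹ * (m i + m b)) • q i := by
          rw [inv_mul_cancel₀ hs.ne', one_smul]
        nth_rewrite 1 [h1]
        rw [mul_smul, add_smul, mul_smul, ← smul_sub]
        congr 1
        rw [smul_sub]; abel
      rw [this, norm_smul, Real.norm_of_nonneg (mul_nonneg (inv_nonneg.mpr hs.le) (hm b).le)]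
      refine mul_le_of_le_one_left (norm_nonneg _) ?_
      rw [inv_mul_le_iff₀ hs]; linarith [hm i]
    · have : q i - (m a + m i)⁻¹ • (m a • q a + m i • q i)
          = ((m a + m i)⁻¹ * m a) • (q i - q a) := by
        have h1 : q i = ((m a + m i)⁻¹ * (m a + m i)) • q i := by
          rw [inv_mul_cancel₀ hs.ne', one_smul]
        nth_rewrite 1 [h1]
        rw [mul_smul, add_smul, mul_smul, ← smul_sub]
        congr 1
        rw [smul_sub]; abel
      rw [this, norm_smul, Real.norm_of_nonneg (mul_nonneg (inv_nonneg.mpr hs.le) (hm a).le),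
        norm_sub_rev (q i)]
      refine mul_le_of_le_one_left (norm_nonneg _) ?_
      rw [inv_mul_le_iff₀ hs]; linarith [hm i]
  · simp

/-- data of a motion of the bodies along a reparametrized orbit -/
structure Mot (m : Fin N → ℝ) (E : ℝ) (q v : ℝ → Cfg N) (c τ : ℝ → ℝ) : Prop where
  τ0 : τ 0 = 0
  τd : ∀ t, HasDerivAt τ (c t) t
  cpos : ∀ t, 0 < c t
  qd : ∀ t i, HasDerivAt (fun s => q s i) (c t • v t i) t
  vd : ∀ t i, HasDerivAt (fun s => v s i) (c t • acc m (q t) i) t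
  ne : ∀ t i j, i ≠ j → q t i ≠ q t j
  en : ∀ t, ∑ i, m i * ‖v t i‖ ^ 2 / 2 - ∑ i, ∑ j, m i * m j / ‖q t i - q t j‖ / 2 = E

theorem Mot.mono {m : Fin N → ℝ} {E : ℝ} {q v : ℝ → Cfg N} {c τ : ℝ → ℝ}
    (h : Mot m E q v c τ) : Monotone τ :=
  monotone_of_deriv_nonneg (fun t => (h.τd t).differentiableAt)
    (fun t => by rw [(h.τd t).deriv]; exact (h.cpos t).le)

theorem Mot.nonneg {m : Fin N → ℝ} {E : ℝ} {q v : ℝ → Cfg N} {c τ : ℝ → ℝ}
    (h : Mot m E q v c τ) {t : ℝ} (ht : 0 ≤ t) : 0 ≤ τ t := by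
  have := h.mono ht; rwa [h.τ0] at this

/-- one step of the bootstrap -/
theorem step (hAcc : AccStm) (hEner : EnerStm)
    (m : Fin N → ℝ) (M μ : ℝ) (hμ : 0 < μ) (hm : ∀ i, μ ≤ m i) (hM : ∑ i, m i ≤ M)
    (a b : Fin N) (hab : a ≠ b) (q v : ℝ → Cfg N) (c τ : ℝ → ℝ) (E : ℝ) (hE : E ≤ 0)
    (hmot : Mot m E q v c τ)
    (w δ : ℝ) (hw : 0 < w) (hδ : 0 < δ) (hC : 1000 * (M + M ^ 2 / μ) ≤ w ^ 2 * δ)
    (X V : Fin N → Fin N → E3)
    (hXdef : ∀ i j, X i j = cm m a b (q 0) i - cm m a b (q 0) j)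
    (hVdef : ∀ i j, V i j = cm m a b (v 0) i - cm m a b (v 0) j)
    (hX : ∀ i j, P2 a b i j → δ ≤ ‖X i j‖)
    (hL1 : ∀ i j, P2 a b i j → ∀ s : ℝ, w * ‖X i j‖ ≤ ‖V i j‖ * ‖X i j + s • V i j‖)
    (hL2 : ∀ i j, P2 a b i j → ∀ s : ℝ, |s| * w ≤ ‖X i j + s • V i j‖)
    (Θ : Fin N → Fin N → ℝ → ℝ)
    (hΘ : ∀ i j, P2 a b i j → ∀ s, HasDerivAt (Θ i j) (1 / ‖X i j + s • V i j‖ ^ 2) s)
    (hΘ' : ∀ i j, P2 a b i j → ∀ s, Θ i j s - Θ i j 0 ≤ Real.pi / (w * ‖X i j‖))
    (T : ℝ) (hT : 0 ≤ T)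
    (hB1 : ∀ t, 0 ≤ t → t ≤ T → ∀ i j, P2 a b i j →
      ‖(cm m a b (q t) i - cm m a b (q t) j) - X i j - τ t • V i j‖
        ≤ ‖X i j + τ t • V i j‖ / 2)
    (hB2 : ∀ t, 0 ≤ t → t ≤ T → ∀ i j, P2 a b i j →
      ‖q t a - q t b‖ ≤ ‖X i j + τ t • V i j‖ / 8) :
    (∀ t, 0 ≤ t → t ≤ T → ∀ i j, P2 a b i j →
      ‖(cm m a b (v t) i - cm m a b (v t) j) - V i j‖ ≤ w / 8) ∧
    (∀ i j, P2 a b i j →
      ‖(cm m a b (q T) i - cm m a b (q T) j) - X i j - τ T • V i j‖
        < ‖X i j + τ T • V i j‖ / 2) ∧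
    (∀ i j, P2 a b i j → ‖q T a - q T b‖ < ‖X i j + τ T • V i j‖ / 8) := by
  have hmpos : ∀ i, 0 < m i := fun i => hμ.trans_le (hm i)
  have hMpos : 0 < M := lt_of_lt_of_le (Finset.sum_pos (fun i _ => hmpos i) ⟨a, Finset.mem_univ _⟩) hM
  -- positivity
  have hXpos : ∀ i j, P2 a b i j → 0 < ‖X i j‖ := fun i j h => hδ.trans_le (hX i j h)
  have hDpos : ∀ i j, P2 a b i j → ∀ s : ℝ, 0 < ‖X i j + s • V i j‖ := by
    intro i j h s
    have h1 := hL1 i j h s
    have h2 : 0 < w * ‖X i j‖ := mul_pos hw (hXpos i j h)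
    by_contra hcon
    have h3 : ‖X i j + s • V i j‖ = 0 := le_antisymm (not_lt.mp hcon) (norm_nonneg _)
    rw [h3, mul_zero] at h1
    linarith
  -- (A) distances
  have hA : ∀ t, 0 ≤ t → t ≤ T → ∀ i j, P2 a b i j →
      ‖X i j + τ t • V i j‖ / 4 ≤ ‖q t i - q t j‖ := by
    intro t h0 h1 i j hP
    have e1 := hB1 t h0 h1 i j hP
    have e2 := hB2 t h0 h1 i j hP
    have e3 := near m hmpos a b (q t) i
    have e4 := near m hmpos a b (q t) j
    set A := cm m a b (q t) i
    set B := cm m a b (q t) j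
    have e5 : ‖X i j + τ t • V i j‖ ≤ ‖(A - B) - X i j - τ t • V i j‖ + ‖A - B‖ := by
      have : X i j + τ t • V i j = -((A - B) - X i j - τ t • V i j) + (A - B) := by abel
      calc ‖X i j + τ t • V i j‖ = ‖-((A - B) - X i j - τ t • V i j) + (A - B)‖ := by
            rw [← this]
        _ ≤ ‖-((A - B) - X i j - τ t • V i j)‖ + ‖A - B‖ := norm_add_le _ _
        _ = _ := by rw [norm_neg]
    have e6 : ‖A - B‖ ≤ ‖q t i - A‖ + ‖q t i - q t j‖ + ‖q t j - B‖ := by
      have : A - B = -(q t i - A) + (q t i - q t j) + (q t j - B) := by abel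
      calc ‖A - B‖ = ‖-(q t i - A) + (q t i - q t j) + (q t j - B)‖ := by rw [← this]
        _ ≤ ‖-(q t i - A) + (q t i - q t j)‖ + ‖q t j - B‖ := norm_add_le _ _
        _ ≤ ‖-(q t i - A)‖ + ‖q t i - q t j‖ + ‖q t j - B‖ := by
            gcongr; exact norm_add_le _ _
        _ = _ := by rw [norm_neg]
    linarith
  -- (B) accelerations
  have hAc : ∀ t, 0 ≤ t → t ≤ T → ∀ k, ‖cm m a b (acc m (q t)) k‖ ≤
      ∑ j ∈ Finset.univ.filter (fun j => P2 a b k j), 16 * m j / ‖X k j + τ t • V k j‖ ^ 2 := by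
    intro t h0 h1 k
    refine hAcc N m hmpos a b hab (q t) (fun i j => ‖X i j + τ t • V i j‖) ?_ ?_ k
    · intro i j hP
      exact ⟨hDpos i j hP _, hA t h0 h1 i j hP⟩
    · intro j _ _
      have e1 : X b j = X a j := by rw [hXdef, hXdef, cm_ab]
      have e2 : V b j = V a j := by rw [hVdef, hVdef, cm_ab]
      simp only [e1, e2]
  -- (C) velocities of the clusters
  set Bk : Fin N → ℝ → ℝ := fun k t =>
    ∑ j ∈ Finset.univ.filter (fun j => P2 a b k j), 16 * m j * (Θ k j (τ t) - Θ k j 0) with hBk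
  have hBkd : ∀ k t, HasDerivAt (Bk k)
      (∑ j ∈ Finset.univ.filter (fun j => P2 a b k j),
        16 * m j * (1 / ‖X k j + τ t • V k j‖ ^ 2 * c t)) t := by
    intro k t
    refine HasDerivAt.fun_sum fun j hj => ?_
    have hP : P2 a b k j := (Finset.mem_filter.mp hj).2
    exact (((hΘ k j hP (τ t)).comp t (hmot.τd t)).sub_const _).const_mul _
  have hvel : ∀ k t, 0 ≤ t → t ≤ T → ‖cm m a b (v t) k - cm m a b (v 0) k‖ ≤ Bk k t := by
    intro k
    have hd : ∀ t, HasDerivAt (fun s => cm m a b (v s) k - cm m a b (v 0) k)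
        (c t • cm m a b (acc m (q t)) k) t := by
      intro t
      have := cm_hasDerivAt m a b v (fun i => c t • acc m (q t) i) t (hmot.vd t) k
      rw [cm_smul] at this
      exact this.sub_const _
    have := image_norm_le_of_norm_deriv_right_le_deriv_boundary (a := 0) (b := T)
      (f := fun s => cm m a b (v s) k - cm m a b (v 0) k)
      (f' := fun t => c t • cm m a b (acc m (q t)) k)
      (fun t _ => (hd t).continuousAt.continuousWithinAt)
      (fun t _ => (hd t).hasDerivWithinAt)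
      (B := Bk k)
      (B' := fun t => ∑ j ∈ Finset.univ.filter (fun j => P2 a b k j),
        16 * m j * (1 / ‖X k j + τ t • V k j‖ ^ 2 * c t))
      (by simp [hBk, hmot.τ0]) (fun t => hBkd k t)
      (by
        intro t ht
        rw [norm_smul, Real.norm_of_nonneg (hmot.cpos t).le]
        refine (mul_le_mul_of_nonneg_left (hAc t ht.1 ht.2.le k) (hmot.cpos t).le).trans
          (le_of_eq ?_)
        rw [Finset.mul_sum]
        refine Finset.sum_congr rfl fun j _ => ?_
        ring)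
    intro t h0 h1
    exact this ⟨h0, h1⟩
  -- (D) bound of Bk
  have hBkle : ∀ k t, Bk k t ≤ w / 16 := by
    intro k t
    have h1 : Bk k t ≤ ∑ j ∈ Finset.univ.filter (fun j => P2 a b k j),
        16 * m j * (Real.pi / (w * δ)) := by
      refine Finset.sum_le_sum fun j hj => ?_
      have hP : P2 a b k j := (Finset.mem_filter.mp hj).2
      refine mul_le_mul_of_nonneg_left ((hΘ' k j hP (τ t)).trans ?_)
        (by have := hmpos j; positivity)
      gcongr
      exact hX k j hP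
    have h2 : ∑ j ∈ Finset.univ.filter (fun j => P2 a b k j),
        16 * m j * (Real.pi / (w * δ)) ≤ 16 * M * (Real.pi / (w * δ)) := by
      rw [← Finset.sum_mul, ← Finset.mul_sum]
      gcongr
      exact (Finset.sum_le_sum_of_subset_of_nonneg (Finset.filter_subset _ _)
        (fun j _ _ => (hmpos j).le)).trans hM
    have h3 : 16 * M * (Real.pi / (w * δ)) ≤ w / 16 := by
      have hpi : Real.pi < 3.15 := Real.pi_lt_d2
      have h4 : 0 ≤ M ^ 2 / μ := by positivity
      rw [mul_div_assoc', div_le_div_iff₀ (by positivity) (by norm_num)]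
      have : 16 * M * Real.pi * 16 ≤ 1000 * (M + M ^ 2 / μ) := by nlinarith
      nlinarith
    linarith
  have hrel : ∀ t, 0 ≤ t → t ≤ T → ∀ i j, P2 a b i j →
      ‖(cm m a b (v t) i - cm m a b (v t) j) - V i j‖ ≤ w / 8 := by
    intro t h0 h1 i j _
    have e1 := (hvel i t h0 h1).trans (hBkle i t)
    have e2 := (hvel j t h0 h1).trans (hBkle j t)
    have : (cm m a b (v t) i - cm m a b (v t) j) - V i j =
        (cm m a b (v t) i - cm m a b (v 0) i) - (cm m a b (v t) j - cm m a b (v 0) j) := by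
      rw [hVdef]; abel
    rw [this]
    refine (norm_sub_le _ _).trans ?_
    linarith
  refine ⟨hrel, ?_, ?_⟩
  · -- positions
    intro i j hP
    have hd : ∀ t, HasDerivAt
        (fun s => (cm m a b (q s) i - cm m a b (q s) j) - X i j - τ s • V i j)
        (c t • ((cm m a b (v t) i - cm m a b (v t) j) - V i j)) t := by
      intro t
      have e1 := cm_hasDerivAt m a b q (fun i => c t • v t i) t (hmot.qd t) i
      have e2 := cm_hasDerivAt m a b q (fun i => c t • v t i) t (hmot.qd t) j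
      rw [cm_smul] at e1 e2
      have e3 := ((e1.sub e2).sub_const (X i j)).sub ((hmot.τd t).smul_const (V i j))
      refine e3.congr_deriv ?_
      rw [smul_sub, smul_sub]
    have := image_norm_le_of_norm_deriv_right_le_deriv_boundary (a := 0) (b := T)
      (f := fun s => (cm m a b (q s) i - cm m a b (q s) j) - X i j - τ s • V i j)
      (f' := fun t => c t • ((cm m a b (v t) i - cm m a b (v t) j) - V i j))
      (fun t _ => (hd t).continuousAt.continuousWithinAt)
      (fun t _ => (hd t).hasDerivWithinAt)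
      (B := fun t => w / 8 * τ t) (B' := fun t => w / 8 * c t)
      (by simp [hmot.τ0, hXdef]) (fun t => (hmot.τd t).const_mul _)
      (by
        intro t ht
        rw [norm_smul, Real.norm_of_nonneg (hmot.cpos t).le, mul_comm]
        exact mul_le_mul_of_nonneg_right (hrel t ht.1 ht.2.le i j hP) (hmot.cpos t).le)
    have h1 := this (right_mem_Icc.mpr hT)
    have h2 := hL2 i j hP (τ T)
    have h3 := hDpos i j hP (τ T)
    rw [abs_of_nonneg (hmot.nonneg hT)] at h2
    have h1' : ‖cm m a b (q T) i - cm m a b (q T) j - X i j - τ T • V i j‖ ≤ w / 8 * τ T := h1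
    nlinarith
  · -- the tight pair
    intro i j hP
    obtain ⟨⟨k, l⟩, hkl, hmax⟩ := Finset.exists_max_image
      (Finset.univ.filter (fun p : Fin N × Fin N => P2 a b p.1 p.2)) (fun p => ‖V p.1 p.2‖)
      ⟨(i, j), Finset.mem_filter.mpr ⟨Finset.mem_univ _, hP⟩⟩
    have hPkl : P2 a b k l := (Finset.mem_filter.mp hkl).2
    have hmax' : ∀ i j, P2 a b i j → ‖V i j‖ ≤ ‖V k l‖ := fun i j h =>
      hmax (i, j) (Finset.mem_filter.mpr ⟨Finset.mem_univ _, h⟩)
    set Vm := ‖V k l‖ with hVm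
    have hwV : w ≤ Vm := by
      have h1 := hL2 k l hPkl
      have h0 : 0 < ‖X k l‖ := hXpos k l hPkl
      by_contra hcon
      push Not at hcon
      -- large s gives a contradiction
      have h2 := h1 (‖X k l‖ / (w - Vm) + 1)
      have h3 : 0 ≤ ‖X k l‖ / (w - Vm) + 1 := by
        have : 0 < w - Vm := by linarith
        positivity
      rw [abs_of_nonneg h3] at h2
      have h4 : ‖X k l + (‖X k l‖ / (w - Vm) + 1) • V k l‖ ≤
          ‖X k l‖ + (‖X k l‖ / (w - Vm) + 1) * Vm := by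
        refine (norm_add_le _ _).trans ?_
        rw [norm_smul, Real.norm_of_nonneg h3]
      have h5 : (‖X k l‖ / (w - Vm) + 1) * (w - Vm) ≤ ‖X k l‖ := by linarith
      have h6 : 0 < w - Vm := by linarith
      rw [add_mul, div_mul_cancel₀ _ h6.ne'] at h5
      linarith
    have hVmpos : 0 < Vm := hw.trans_le hwV
    set d := w * δ / Vm with hd
    have hdpos : 0 < d := by positivity
    have hDd : ∀ i j, P2 a b i j → ∀ s : ℝ, d ≤ ‖X i j + s • V i j‖ := by
      intro i j h s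
      rw [hd, div_le_iff₀ hVmpos]
      calc w * δ ≤ w * ‖X i j‖ := by gcongr; exact hX i j h
        _ ≤ ‖V i j‖ * ‖X i j + s • V i j‖ := hL1 i j h s
        _ ≤ Vm * ‖X i j + s • V i j‖ := by gcongr; exact hmax' i j h
        _ = _ := mul_comm _ _
    have hu : 7 / 8 * Vm ≤ ‖cm m a b (v T) k - cm m a b (v T) l‖ := by
      have h1 := hrel T hT le_rfl k l hPkl
      have h2 : Vm ≤ ‖(cm m a b (v T) k - cm m a b (v T) l) - V k l‖
          + ‖cm m a b (v T) k - cm m a b (v T) l‖ := by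
        have : V k l = -((cm m a b (v T) k - cm m a b (v T) l) - V k l)
          + (cm m a b (v T) k - cm m a b (v T) l) := by abel
        calc Vm = ‖V k l‖ := rfl
          _ = ‖-((cm m a b (v T) k - cm m a b (v T) l) - V k l)
            + (cm m a b (v T) k - cm m a b (v T) l)‖ := by rw [← this]
          _ ≤ ‖-((cm m a b (v T) k - cm m a b (v T) l) - V k l)‖
            + ‖cm m a b (v T) k - cm m a b (v T) l‖ := norm_add_le _ _
          _ = _ := by rw [norm_neg]
      linarith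
    have hfin := hEner N m M μ hμ hm hM a b hab (q T) (v T) E d (7 / 8 * Vm) hE hdpos
      (by positivity) (hmot.ne T) (hmot.en T)
      (fun i j h => le_trans (by have := hDd i j h (τ T); linarith) (hA T hT le_rfl i j h))
      k l hPkl hu
    have hdle : d ≤ ‖X i j + τ T • V i j‖ := hDd i j hP _
    refine lt_of_lt_of_le ?_ (div_le_div_of_nonneg_right hdle (by norm_num))
    -- numeric
    have hM2 : M ^ 2 * 1000 ≤ μ * (w ^ 2 * δ) := by
      have h1 : 1000 * (M ^ 2 / μ) ≤ w ^ 2 * δ := by nlinarith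
      have h2 := mul_le_mul_of_nonneg_left h1 hμ.le
      have h3 : μ * (1000 * (M ^ 2 / μ)) = M ^ 2 * 1000 := by field_simp
      linarith
    have hdV : d * Vm = w * δ := by rw [hd]; field_simp
    have h2M : 2 * M ^ 2 / d ≤ μ * Vm ^ 2 / 500 := by
      rw [div_le_div_iff₀ hdpos (by norm_num)]
      -- 2 M^2 * 500 <= mu Vm^2 d = mu Vm w delta ; mu w^2 delta <= mu w delta Vm
      have h1 : μ * Vm ^ 2 * d = μ * (Vm * (w * δ)) := by rw [← hdV]; ring
      rw [h1]
      have h2 : w ^ 2 * δ ≤ Vm * (w * δ) := by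
        have : w * (w * δ) ≤ Vm * (w * δ) := by gcongr
        nlinarith
      have h3 : μ * (w ^ 2 * δ) ≤ μ * (Vm * (w * δ)) := mul_le_mul_of_nonneg_left h2 hμ.le
      linarith
    by_contra hcon
    push Not at hcon
    -- d / 8 ≤ r
    have h4 : d / 8 * (μ * (7 / 8 * Vm) ^ 2 / 4 - 2 * M ^ 2 / d) ≤ M ^ 2 := by
      refine le_trans (mul_le_mul_of_nonneg_right hcon ?_) hfin
      have : μ * (7 / 8 * Vm) ^ 2 / 4 = μ * Vm ^ 2 * (49 / 256) := by ring
      have h5 : 0 < μ * Vm ^ 2 := by positivity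
      linarith
    have h6 : d / 8 * (μ * Vm ^ 2 * (9 / 50)) ≤ M ^ 2 := by
      refine le_trans (mul_le_mul_of_nonneg_left ?_ (by positivity)) h4
      have : μ * (7 / 8 * Vm) ^ 2 / 4 = μ * Vm ^ 2 * (49 / 256) := by ring
      have h5 : 0 < μ * Vm ^ 2 := by positivity
      linarith
    have h7 : d / 8 * (μ * Vm ^ 2 * (9 / 50)) = μ * (Vm * (w * δ)) * (9 / 400) := by
      rw [← hdV]; ring
    rw [h7] at h6
    have h8 : w ^ 2 * δ ≤ Vm * (w * δ) := by
      have : w * (w * δ) ≤ Vm * (w * δ) := by gcongr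
      nlinarith
    have h9 : μ * (w ^ 2 * δ) ≤ μ * (Vm * (w * δ)) := mul_le_mul_of_nonneg_left h8 hμ.le
    have h10 : 0 < μ * (w ^ 2 * δ) := by positivity
    nlinarith

end Pool.Agent.Y516.NW
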