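import Pool.Agent.Y516.NW.Defs

set_option autoImplicit false

/-! Project NW: statements of the parts. -/

namespace Pool.Agent.Y516.NW

open MeasureTheory

/-- NW-CYL: volume of a thin cylinder around the line through `X`. -/
def CylStm : Prop :=
  ∀ R : ℝ, 0 < R → ∃ C : ℝ, 0 ≤ C ∧ ∀ X : E3, X ≠ 0 → ∀ t : ℝ, 0 ≤ t →
    volume {v : E3 | ‖v‖ ≤ R ∧ gr X v < t * ‖X‖ ^ 2} ≤ ENNReal.ofReal (C * t)

/-- NW-PUSH: image of Lebesgue measure on a ball under a surjective linear map. -/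
def PushStm : Prop :=
  ∀ (n : ℕ) (V : (Fin n → E3) →ₗ[ℝ] E3), Function.Surjective V → ∀ R : ℝ,
    ∃ C : ℝ, 0 ≤ C ∧ ∀ A : Set E3,
      volume {P : Fin n → E3 | ‖P‖ ≤ R ∧ V P ∈ A} ≤ ENNReal.ofReal C * volume A

/-- NW-LINE: a straight line `X + s V` at positive distance from the origin. -/
def LineStm : Prop :=
  ∀ (X V : E3) (w : ℝ), 0 < w → X ≠ 0 → w ^ 2 * ‖X‖ ^ 2 ≤ gr X V →
    (∀ s : ℝ, w * ‖X‖ ≤ ‖V‖ * ‖X + s • V‖) ∧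
    (∀ s : ℝ, |s| * w ≤ ‖X + s • V‖) ∧
    ∃ Θ : ℝ → ℝ, (∀ s, HasDerivAt Θ (1 / ‖X + s • V‖ ^ 2) s) ∧
      ∀ s, Θ s - Θ 0 ≤ Real.pi / (w * ‖X‖)

/-- NW-ACC: accelerations of the clusters. -/
def AccStm : Prop :=
  ∀ (N : ℕ) (m : Fin N → ℝ), (∀ i, 0 < m i) → ∀ a b : Fin N, a ≠ b →
    ∀ (q : Cfg N) (D : Fin N → Fin N → ℝ),
      (∀ i j, P2 a b i j → 0 < D i j ∧ D i j / 4 ≤ ‖q i - q j‖) →
      (∀ j, j ≠ a → j ≠ b → D b j = D a j) →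
      ∀ k, ‖cm m a b (acc m q) k‖ ≤
        ∑ j ∈ Finset.univ.filter (fun j => P2 a b k j), 16 * m j / D k j ^ 2

/-- NW-ENER: the pair `a, b` stays tight, by conservation of energy. -/
def EnerStm : Prop :=
  ∀ (N : ℕ) (m : Fin N → ℝ) (M μ : ℝ), 0 < μ → (∀ i, μ ≤ m i) → ∑ i, m i ≤ M →
    ∀ a b : Fin N, a ≠ b → ∀ (q v : Cfg N) (E d u : ℝ), E ≤ 0 → 0 < d → 0 ≤ u →
      (∀ i j, i ≠ j → q i ≠ q j) →
      ∑ i, m i * ‖v i‖ ^ 2 / 2 - ∑ i, ∑ j, m i * m j / ‖q i - q j‖ / 2 = E →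
      (∀ i j, P2 a b i j → d / 4 ≤ ‖q i - q j‖) →
      ∀ k l, P2 a b k l → u ≤ ‖cm m a b v k - cm m a b v l‖ →
        ‖q a - q b‖ * (μ * u ^ 2 / 4 - 2 * M ^ 2 / d) ≤ M ^ 2

/-- NW-LOC: near a point the time integral of `ψ` along the orbits is bounded below. -/
def LocStm : Prop :=
  ∀ (F : Type) [NormedAddCommGroup F] [NormedSpace ℝ F] (Ω S : Set F) (Z : F → F)
    (ψ : F → ℝ) (φ : ℝ → F → F), IsOpen Ω → S ⊆ Ω → ContinuousOn Z Ω → ContinuousOn ψ Ω →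
    (∀ x ∈ Ω, 0 < ψ x) →
    (∀ x ∈ S, φ 0 x = x ∧ ∀ t : ℝ, φ t x ∈ S ∧ HasDerivAt (fun s : ℝ => φ s x) (Z (φ t x)) t) →
    ∀ x0 ∈ Ω, ∃ V : Set F, IsOpen V ∧ x0 ∈ V ∧ ∃ s1 > 0, ∃ η > 0, ∀ y ∈ V ∩ S,
      ∀ τ : ℝ → ℝ, τ 0 = 0 → (∀ t, HasDerivAt τ (ψ (φ t y)) t) → ∀ t ≥ s1, η ≤ τ t

/-- NW-BOOT: continuous induction for finitely many continuous functions. -/
def BootStm : Prop :=
  ∀ (ι : Type) [Finite ι] (g : ι → ℝ → ℝ), (∀ α, Continuous (g α)) → (∀ α, 0 < g α 0) →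
    (∀ T, 0 ≤ T → (∀ t, 0 ≤ t → t ≤ T → ∀ α, 0 ≤ g α t) → ∀ α, 0 < g α T) →
    ∀ t, 0 ≤ t → ∀ α, 0 < g α t

/-- momenta of all bodies from those of the first `n` -/
noncomputable def mom {n : ℕ} (P : Fin n → E3) : Cfg (n + 1) := Fin.snoc P (-∑ i, P i)

/-- NW-SURJ: the relative velocity of two clusters is a surjective linear function. -/
def SurjStm : Prop :=
  ∀ (n : ℕ) (m : Fin (n + 1) → ℝ), (∀ i, 0 < m i) → ∀ a b : Fin (n + 1), a ≠ b →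
    ∀ i j, P2 a b i j → ∃ V : (Fin n → E3) →ₗ[ℝ] E3, Function.Surjective V ∧
      ∀ P, V P = cm m a b (fun k => (m k)⁻¹ • mom P k) i
        - cm m a b (fun k => (m k)⁻¹ • mom P k) j

/-- NW-BALL: the kinetic ball is bounded and has positive volume. -/
def BallStm : Prop :=
  ∀ (n : ℕ) (m : Fin (n + 1) → ℝ), (∀ i, 0 < m i) →
    ∃ R : ℝ, 0 < R ∧ (∀ P : Fin n → E3, ∑ i, ‖mom P i‖ ^ 2 / (2 * m i) ≤ 1 → ‖P‖ ≤ R) ∧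
      0 < volume {P : Fin n → E3 | ∑ i, ‖mom P i‖ ^ 2 / (2 * m i) ≤ 1}

end Pool.Agent.Y516.NW
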