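import Pool.Agent.Y516.NW.Wand

set_option autoImplicit false

/-! Project NW: statement of the part NW-POS. -/

namespace Pool.Agent.Y516.NW

/-- NW-POS: for positive energy every point is wandering. -/
def PosStm : Prop :=
  ∀ (N : ℕ) (m : Fin N → ℝ), (∀ i, 0 < m i) → ∀ E : ℝ, 0 < E →
    ∀ (ψ : Cfg N × Cfg N → ℝ) (φ : ℝ → Cfg N × Cfg N → Cfg N × Cfg N), IsFl m E ψ φ →
    ∀ x ∈ Surf m E, ¬ NonW (Surf m E) φ x

end Pool.Agent.Y516.NW
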