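import Pool.Agent.Y516.NW.Main

set_option autoImplicit false

/-! Project NW: the clusters escape, hence the point is wandering. -/

namespace Pool.Agent.Y516.NW

open MeasureTheory Set

variable {N : ℕ}

theorem curve (hBoot : BootStm) (hAcc : AccStm) (hEner : EnerStm) (hLine : LineStm)
    (m : Fin N → ℝ) (M μ : ℝ) (hμ : 0 < μ) (hm : ∀ i, μ ≤ m i) (hM : ∑ i, m i ≤ M)
    (a b : Fin N) (hab : a ≠ b) (q v : ℝ → Cfg N) (c τ : ℝ → ℝ) (E : ℝ) (hE : E ≤ 0)
    (hmot : Mot m E q v c τ)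
    (w δ : ℝ) (hw : 0 < w) (hδ : 0 < δ) (hC : 1000 * (M + M ^ 2 / μ) ≤ w ^ 2 * δ)
    (hX : ∀ i j, P2 a b i j → δ ≤ ‖cm m a b (q 0) i - cm m a b (q 0) j‖)
    (hG : ∀ i j, P2 a b i j → w ^ 2 * ‖cm m a b (q 0) i - cm m a b (q 0) j‖ ^ 2 ≤
      gr (cm m a b (q 0) i - cm m a b (q 0) j) (cm m a b (v 0) i - cm m a b (v 0) j))
    (hr : ‖q 0 a - q 0 b‖ ≤ δ / 16) :
    ∀ t, 0 ≤ t → ∀ i j, P2 a b i j →
      ‖(cm m a b (v t) i - cm m a b (v t) j) - (cm m a b (v 0) i - cm m a b (v 0) j)‖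
        ≤ w / 8 := by
  set X : Fin N → Fin N → E3 := fun i j => cm m a b (q 0) i - cm m a b (q 0) j with hXdef
  set V : Fin N → Fin N → E3 := fun i j => cm m a b (v 0) i - cm m a b (v 0) j with hVdef
  have hne : ∀ i j, P2 a b i j → X i j ≠ 0 := fun i j h =>
    norm_pos_iff.mp (hδ.trans_le (hX i j h))
  have hL1 : ∀ i j, P2 a b i j → ∀ s : ℝ, w * ‖X i j‖ ≤ ‖V i j‖ * ‖X i j + s • V i j‖ :=
    fun i j h => (hLine (X i j) (V i j) w hw (hne i j h) (hG i j h)).1
  have hL2 : ∀ i j, P2 a b i j → ∀ s : ℝ, |s| * w ≤ ‖X i j + s • V i j‖ :=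
    fun i j h => (hLine (X i j) (V i j) w hw (hne i j h) (hG i j h)).2.1
  have hT : ∀ i j, ∃ Θ : ℝ → ℝ, P2 a b i j →
      (∀ s, HasDerivAt Θ (1 / ‖X i j + s • V i j‖ ^ 2) s) ∧
      ∀ s, Θ s - Θ 0 ≤ Real.pi / (w * ‖X i j‖) := by
    intro i j
    by_cases h : P2 a b i j
    · obtain ⟨Θ, h1, h2⟩ := (hLine (X i j) (V i j) w hw (hne i j h) (hG i j h)).2.2
      exact ⟨Θ, fun _ => ⟨h1, h2⟩⟩
    · exact ⟨fun _ => 0, fun h' => absurd h' h⟩
  choose Θ hΘ using hT
  have hstep := fun (T : ℝ) (hT : 0 ≤ T) => step hAcc hEner m M μ hμ hm hM a b hab q v c τ E hE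
    hmot w δ hw hδ hC X V (fun _ _ => rfl) (fun _ _ => rfl) hX hL1 hL2 Θ
    (fun i j h => (hΘ i j h).1) (fun i j h => (hΘ i j h).2) T hT
  -- continuity
  have hτc : Continuous τ := continuous_iff_continuousAt.mpr fun t => (hmot.τd t).continuousAt
  have hqc : ∀ i, Continuous fun t => q t i := fun i =>
    continuous_iff_continuousAt.mpr fun t => (hmot.qd t i).continuousAt
  have hcm : ∀ i, Continuous fun t => cm m a b (q t) i := fun i =>
    continuous_iff_continuousAt.mpr fun t =>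
      (cm_hasDerivAt m a b q (fun i => c t • v t i) t (hmot.qd t) i).continuousAt
  have hDc : ∀ i j, Continuous fun t => ‖X i j + τ t • V i j‖ := fun i j =>
    (continuous_const.add (hτc.smul continuous_const)).norm
  let ι := {p : Fin N × Fin N // P2 a b p.1 p.2} × Bool
  let g : ι → ℝ → ℝ := fun α t =>
    if α.2 then ‖X α.1.1.1 α.1.1.2 + τ t • V α.1.1.1 α.1.1.2‖ / 2
      - ‖(cm m a b (q t) α.1.1.1 - cm m a b (q t) α.1.1.2) - X α.1.1.1 α.1.1.2
        - τ t • V α.1.1.1 α.1.1.2‖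
    else ‖X α.1.1.1 α.1.1.2 + τ t • V α.1.1.1 α.1.1.2‖ / 8 - ‖q t a - q t b‖
  have hg := hBoot ι g
    (by
      rintro ⟨⟨⟨i, j⟩, hP⟩, _ | _⟩
      · exact ((hDc i j).div_const 8).sub ((hqc a).sub (hqc b)).norm
      · exact ((hDc i j).div_const 2).sub
          ((((hcm i).sub (hcm j)).sub continuous_const).sub (hτc.smul continuous_const)).norm)
    (by
      rintro ⟨⟨⟨i, j⟩, hP⟩, _ | _⟩
      · have h1 := hX i j hP
        simp only [g, hmot.τ0, zero_smul, add_zero, Bool.false_eq_true, if_false]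
        have : ‖X i j‖ = ‖cm m a b (q 0) i - cm m a b (q 0) j‖ := rfl
        rw [← this] at h1
        linarith
      · have h1 := hX i j hP
        have h2 : cm m a b (q 0) i - cm m a b (q 0) j - X i j = 0 := by simp [X]
        simp only [g, hmot.τ0, zero_smul, add_zero, if_true, sub_zero, h2, norm_zero]
        have : ‖X i j‖ = ‖cm m a b (q 0) i - cm m a b (q 0) j‖ := rfl
        rw [← this] at h1
        linarith)
    (by
      intro T hT0 hall
      obtain ⟨_, h2, h3⟩ := hstep T hT0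
        (fun t h0 h1 i j hP => by
          have := hall t h0 h1 (⟨(i, j), hP⟩, true)
          simp only [g, if_true] at this
          linarith)
        (fun t h0 h1 i j hP => by
          have := hall t h0 h1 (⟨(i, j), hP⟩, false)
          simp only [g, Bool.false_eq_true, if_false] at this
          linarith)
      rintro ⟨⟨⟨i, j⟩, hP⟩, _ | _⟩
      · have := h3 i j hP
        simp only [g, Bool.false_eq_true, if_false]
        linarith
      · have := h2 i j hP
        simp only [g, if_true]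
        linarith)
  intro t ht i j hP
  exact (hstep t ht
    (fun s h0 h1 i j hP => by
      have := hg s h0 (⟨(i, j), hP⟩, true)
      simp only [g, if_true] at this
      linarith)
    (fun s h0 h1 i j hP => by
      have := hg s h0 (⟨(i, j), hP⟩, false)
      simp only [g, Bool.false_eq_true, if_false] at this
      linarith)).1 t ht le_rfl i j hP

/-- nonwandering points of `φ` on `S` -/
def NonW {F : Type*} [TopologicalSpace F] (S : Set F) (φ : ℝ → F → F) (x : F) : Prop :=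
  ∀ V : Set F, IsOpen V → x ∈ V → ∀ T : ℝ, ∃ t : ℝ, T < t ∧ ∃ y ∈ V ∩ S, φ t y ∈ V

/-- collision-free phase points -/
def Free (N : ℕ) : Set (Cfg N × Cfg N) := {x | ∀ i j, i ≠ j → x.1 i ≠ x.1 j}

/-- the vector field -/
noncomputable def Z (m : Fin N → ℝ) (ψ : Cfg N × Cfg N → ℝ) (x : Cfg N × Cfg N) : Cfg N × Cfg N :=
  ψ x • ((fun i => (m i)⁻¹ • x.2 i),
    (fun i => ∑ j, (m i * m j / ‖x.1 j - x.1 i‖ ^ 3) • (x.1 j - x.1 i)))

/-- complete reparametrized flow on the energy surface -/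
structure IsFl (m : Fin N → ℝ) (E : ℝ) (ψ : Cfg N × Cfg N → ℝ)
    (φ : ℝ → Cfg N × Cfg N → Cfg N × Cfg N) : Prop where
  cont : ContinuousOn ψ (Free N)
  pos : ∀ x ∈ Free N, 0 < ψ x
  flow : ∀ x ∈ Surf m E, φ 0 x = x ∧ ∀ t : ℝ, φ t x ∈ Surf m E ∧
    HasDerivAt (fun s : ℝ => φ s x) (Z m ψ (φ t x)) t

theorem free_open : IsOpen (Free N) := by
  have : Free N = ⋂ i : Fin N, ⋂ j : Fin N, {x | i ≠ j → x.1 i ≠ x.1 j} := by
    ext x; simp [Free]
  rw [this]
  refine isOpen_iInter_of_finite fun i => isOpen_iInter_of_finite fun j => ?_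
  by_cases h : i = j
  · simp [h]
  · simp only [ne_eq, h, not_false_eq_true, true_imp_iff]
    exact (isClosed_eq ((continuous_apply i).comp continuous_fst)
      ((continuous_apply j).comp continuous_fst)).isOpen_compl

theorem Z_cont (m : Fin N → ℝ) (ψ : Cfg N × Cfg N → ℝ) (h : ContinuousOn ψ (Free N)) :
    ContinuousOn (Z m ψ) (Free N) := by
  unfold Z
  refine h.smul (ContinuousOn.prodMk ?_ ?_)
  · exact (continuous_pi fun i => (((continuous_apply i).comp continuous_snd).const_smul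
      ((m i)⁻¹))).continuousOn
  · refine continuousOn_pi.mpr fun i => continuousOn_finsetSum _ fun j _ => ?_
    by_cases hij : j = i
    · subst hij
      simp only [sub_self, smul_zero]
      exact continuousOn_const
    · have hc : Continuous fun x : Cfg N × Cfg N => x.1 j - x.1 i :=
        ((continuous_apply j).comp continuous_fst).sub ((continuous_apply i).comp continuous_fst)
      refine ContinuousOn.smul (ContinuousOn.div continuousOn_const
        (hc.norm.pow 3).continuousOn ?_) hc.continuousOn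
      intro x hx
      exact pow_ne_zero 3 (norm_ne_zero_iff.mpr (sub_ne_zero.mpr (hx j i hij)))

/-- velocities of a phase point -/
noncomputable def vel (m : Fin N → ℝ) (x : Cfg N × Cfg N) : Cfg N := fun k => (m k)⁻¹ • x.2 k

theorem surf_free (m : Fin N → ℝ) (E : ℝ) : Surf m E ⊆ Free N := fun _ hx => hx.1

theorem mot_of_flow (m : Fin N → ℝ) (hm : ∀ i, 0 < m i) (E : ℝ) (ψ : Cfg N × Cfg N → ℝ)
    (φ : ℝ → Cfg N × Cfg N → Cfg N × Cfg N) (hφ : IsFl m E ψ φ) (y : Cfg N × Cfg N)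
    (hy : y ∈ Surf m E) :
    ∃ τ : ℝ → ℝ, Mot m E (fun t => (φ t y).1) (fun t => vel m (φ t y)) (fun t => ψ (φ t y)) τ := by
  have hfl := hφ.flow y hy
  have hcont : Continuous fun t => φ t y :=
    continuous_iff_continuousAt.mpr fun t => (hfl.2 t).2.continuousAt
  have hc : Continuous fun t => ψ (φ t y) :=
    hφ.cont.comp_continuous hcont (fun t => surf_free m E (hfl.2 t).1)
  refine ⟨fun t => ∫ s in (0:ℝ)..t, ψ (φ s y), ?_⟩
  have hd1 : ∀ t, HasDerivAt (fun s => (φ s y).1) (Z m ψ (φ t y)).1 t := fun t =>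
    (ContinuousLinearMap.fst ℝ (Cfg N) (Cfg N)).hasFDerivAt.comp_hasDerivAt t (hfl.2 t).2
  have hd2 : ∀ t, HasDerivAt (fun s => (φ s y).2) (Z m ψ (φ t y)).2 t := fun t =>
    (ContinuousLinearMap.snd ℝ (Cfg N) (Cfg N)).hasFDerivAt.comp_hasDerivAt t (hfl.2 t).2
  refine ⟨by simp, ?_, ?_, ?_, ?_, ?_, ?_⟩
  · intro t
    exact intervalIntegral.integral_hasDerivAt_right (hc.intervalIntegrable _ _)
      (hc.stronglyMeasurableAtFilter _ _) hc.continuousAt
  · intro t
    exact hφ.pos _ (surf_free m E (hfl.2 t).1)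
  · intro t i
    exact hasDerivAt_pi.mp (hd1 t) i
  · intro t i
    have h1 := (hasDerivAt_pi.mp (hd2 t) i).const_smul ((m i)⁻¹)
    refine h1.congr_deriv ?_
    simp only [Z, acc, Prod.smul_snd, Pi.smul_apply, Finset.smul_sum, smul_smul]
    refine Finset.sum_congr rfl fun j _ => ?_
    congr 1
    have := (hm i).ne'
    field_simp
  · intro t i j hij
    exact (hfl.2 t).1.1 i j hij
  · intro t
    rw [← (hfl.2 t).1.2.2.2]
    congr 1
    refine Finset.sum_congr rfl fun i _ => ?_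
    simp only [vel, norm_smul, norm_inv, Real.norm_of_nonneg (hm i).le]
    have := (hm i).ne'
    field_simp

theorem cm_cont1 (m : Fin N → ℝ) (a b i : Fin N) :
    Continuous fun x : Cfg N × Cfg N => cm m a b x.1 i := by
  unfold cm
  split_ifs
  · exact (((((continuous_apply a).comp continuous_fst).const_smul (m a)).add
      (((continuous_apply b).comp continuous_fst).const_smul (m b))).const_smul ((m a + m b)⁻¹))
  · exact (continuous_apply i).comp continuous_fst

theorem cm_cont2 (m : Fin N → ℝ) (a b i : Fin N) :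
    Continuous fun x : Cfg N × Cfg N => cm m a b (vel m x) i := by
  have hv : ∀ k, Continuous fun x : Cfg N × Cfg N => vel m x k := fun k =>
    (((continuous_apply k).comp continuous_snd).const_smul ((m k)⁻¹))
  unfold cm
  split_ifs
  · exact ((((hv a).const_smul (m a)).add ((hv b).const_smul (m b))).const_smul ((m a + m b)⁻¹))
  · exact hv i

/-- points with a tight pair and transversal relative velocities of the clusters are wandering -/
theorem wander (hBoot : BootStm) (hAcc : AccStm) (hEner : EnerStm) (hLine : LineStm)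
    (hLoc : LocStm)
    (m : Fin N → ℝ) (M μ : ℝ) (hμ : 0 < μ) (hm : ∀ i, μ ≤ m i) (hM : ∑ i, m i ≤ M)
    (a b : Fin N) (hab : a ≠ b) (E : ℝ) (hE : E ≤ 0) (ψ : Cfg N × Cfg N → ℝ)
    (φ : ℝ → Cfg N × Cfg N → Cfg N × Cfg N) (hφ : IsFl m E ψ φ) (x : Cfg N × Cfg N)
    (hx : x ∈ Surf m E) (i₀ j₀ : Fin N) (hP₀ : P2 a b i₀ j₀)
    (w δ : ℝ) (hw : 0 < w) (hδ : 0 < δ) (hC : 8000 * (M + M ^ 2 / μ) ≤ w ^ 2 * δ)
    (hX : ∀ i j, P2 a b i j → δ ≤ ‖cm m a b x.1 i - cm m a b x.1 j‖)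
    (hG : ∀ i j, P2 a b i j → w ^ 2 * ‖cm m a b x.1 i - cm m a b x.1 j‖ ^ 2 ≤
      gr (cm m a b x.1 i - cm m a b x.1 j) (cm m a b (vel m x) i - cm m a b (vel m x) j))
    (hr : ‖x.1 a - x.1 b‖ ≤ δ / 64) :
    ¬ NonW (Surf m E) φ x := by
  have hmpos : ∀ i, 0 < m i := fun i => hμ.trans_le (hm i)
  set V0 : E3 := cm m a b (vel m x) i₀ - cm m a b (vel m x) j₀ with hV0
  have hV0w : w ≤ ‖V0‖ := by
    have h1 := hG i₀ j₀ hP₀
    have h2 : 0 < ‖cm m a b x.1 i₀ - cm m a b x.1 j₀‖ := hδ.trans_le (hX i₀ j₀ hP₀)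
    have h3 : gr (cm m a b x.1 i₀ - cm m a b x.1 j₀) V0 ≤
        ‖cm m a b x.1 i₀ - cm m a b x.1 j₀‖ ^ 2 * ‖V0‖ ^ 2 := by
      unfold gr; nlinarith [sq_nonneg (inner ℝ (cm m a b x.1 i₀ - cm m a b x.1 j₀) V0)]
    have h4 : w ^ 2 ≤ ‖V0‖ ^ 2 := by
      have h5 := h1.trans h3
      have h6 : 0 < ‖cm m a b x.1 i₀ - cm m a b x.1 j₀‖ ^ 2 := by positivity
      by_contra hcon
      push Not at hcon
      nlinarith
    exact le_of_sq_le_sq h4 (norm_nonneg _) |> fun h => h
  -- the neighbourhood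
  let U1 : Set (Cfg N × Cfg N) := {y | (∀ p : Fin N × Fin N, P2 a b p.1 p.2 →
      δ / 2 < ‖cm m a b y.1 p.1 - cm m a b y.1 p.2‖ ∧
      (w / 2) ^ 2 * ‖cm m a b y.1 p.1 - cm m a b y.1 p.2‖ ^ 2 <
        gr (cm m a b y.1 p.1 - cm m a b y.1 p.2)
          (cm m a b (vel m y) p.1 - cm m a b (vel m y) p.2))}
  let U2 : Set (Cfg N × Cfg N) := {y | ‖y.1 a - y.1 b‖ < δ / 32}
  let U3 : Set (Cfg N × Cfg N) :=
    {y | ‖(cm m a b (vel m y) i₀ - cm m a b (vel m y) j₀) - V0‖ < w / 16}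
  have hU1 : IsOpen U1 := by
    have : U1 = ⋂ p : Fin N × Fin N, {y | P2 a b p.1 p.2 →
      δ / 2 < ‖cm m a b y.1 p.1 - cm m a b y.1 p.2‖ ∧
      (w / 2) ^ 2 * ‖cm m a b y.1 p.1 - cm m a b y.1 p.2‖ ^ 2 <
        gr (cm m a b y.1 p.1 - cm m a b y.1 p.2)
          (cm m a b (vel m y) p.1 - cm m a b (vel m y) p.2)} := by
      ext y; simp only [U1, mem_iInter]; rfl
    rw [this]
    refine isOpen_iInter_of_finite fun p => ?_
    by_cases hP : P2 a b p.1 p.2
    · have hPt : P2 a b p.1 p.2 = True := eq_true hP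
      rw [hPt]
      simp only [true_imp_iff]
      have c1 := (cm_cont1 m a b p.1).sub (cm_cont1 m a b p.2)
      have c2 := (cm_cont2 m a b p.1).sub (cm_cont2 m a b p.2)
      refine (isOpen_lt continuous_const c1.norm).inter (isOpen_lt
        (continuous_const.mul (c1.norm.pow 2)) ?_)
      unfold gr
      exact ((c1.norm.pow 2).mul (c2.norm.pow 2)).sub ((c1.inner c2).pow 2)
    · have hPt : P2 a b p.1 p.2 = False := eq_false hP
      rw [hPt]
      simp only [false_imp_iff]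
      exact isOpen_univ
  have hU2 : IsOpen U2 := isOpen_lt
    ((((continuous_apply a).comp continuous_fst).sub ((continuous_apply b).comp
      continuous_fst)).norm) continuous_const
  have hU3 : IsOpen U3 := isOpen_lt
    ((((cm_cont2 m a b i₀).sub (cm_cont2 m a b j₀)).sub continuous_const).norm) continuous_const
  have hxU1 : x ∈ U1 := by
    rintro ⟨i, j⟩ hP
    have h1 := hX i j hP
    have h2 := hG i j hP
    have h3 : 0 < ‖cm m a b x.1 i - cm m a b x.1 j‖ := hδ.trans_le h1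
    refine ⟨by dsimp only; linarith, lt_of_lt_of_le ?_ h2⟩
    dsimp only
    have h4 : 0 < w ^ 2 * ‖cm m a b x.1 i - cm m a b x.1 j‖ ^ 2 := by positivity
    nlinarith
  have hxU2 : x ∈ U2 := by
    show ‖x.1 a - x.1 b‖ < δ / 32
    linarith
  have hxU3 : x ∈ U3 := by
    show ‖(cm m a b (vel m x) i₀ - cm m a b (vel m x) j₀) - V0‖ < w / 16
    rw [← hV0, sub_self, norm_zero]; positivity
  -- local time
  obtain ⟨V1, hV1o, hxV1, s1, hs1, η, hη, hloc⟩ := hLoc (Cfg N × Cfg N) (Free N) (Surf m E)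
    (Z m ψ) ψ φ free_open (surf_free m E) (Z_cont m ψ hφ.cont) hφ.cont hφ.pos hφ.flow x
    (surf_free m E hx)
  let G : Cfg N × Cfg N → ℝ := fun y => inner ℝ V0 (cm m a b y.1 i₀ - cm m a b y.1 j₀)
  have hGc : Continuous G :=
    continuous_const.inner ((cm_cont1 m a b i₀).sub (cm_cont1 m a b j₀))
  -- growth
  have hgrow : ∀ y ∈ (U1 ∩ U2 ∩ U3) ∩ V1 ∩ Surf m E, ∀ t ≥ s1,
      w ^ 2 / 2 * η ≤ G (φ t y) - G y := by
    rintro y ⟨⟨⟨⟨hy1, hy2⟩, hy3⟩, hyV⟩, hyS⟩ t ht
    obtain ⟨τ, hmot⟩ := mot_of_flow m hmpos E ψ φ hφ y hyS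
    have hη' := hloc y ⟨hyV, hyS⟩ τ hmot.τ0 hmot.τd t ht
    have h0 : φ 0 y = y := (hφ.flow y hyS).1
    have hcur := curve hBoot hAcc hEner hLine m M μ hμ hm hM a b hab _ _ _ τ E hE hmot
      (w / 2) (δ / 2) (by positivity) (by positivity)
      (by nlinarith)
      (fun i j hP => by rw [h0]; exact (hy1 (i, j) hP).1.le)
      (fun i j hP => by rw [h0]; exact (hy1 (i, j) hP).2.le)
      (by
        rw [h0]
        have : ‖y.1 a - y.1 b‖ < δ / 32 := hy2
        linarith)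
    have hder : ∀ s, HasDerivAt (fun s => G (φ s y) - w ^ 2 / 2 * τ s)
        (inner ℝ V0 (ψ (φ s y) • (cm m a b (vel m (φ s y)) i₀ - cm m a b (vel m (φ s y)) j₀))
          - w ^ 2 / 2 * ψ (φ s y)) s := by
      intro s
      have e1 := cm_hasDerivAt m a b _ (fun i => ψ (φ s y) • vel m (φ s y) i) s (hmot.qd s) i₀
      have e2 := cm_hasDerivAt m a b _ (fun i => ψ (φ s y) • vel m (φ s y) i) s (hmot.qd s) j₀
      rw [cm_smul] at e1 e2
      have e3 := (e1.sub e2)
      rw [← smul_sub] at e3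
      have e4 : HasDerivAt (fun s => inner ℝ V0 (cm m a b (φ s y).1 i₀ - cm m a b (φ s y).1 j₀))
          (inner ℝ V0 (ψ (φ s y) • (cm m a b (vel m (φ s y)) i₀
            - cm m a b (vel m (φ s y)) j₀))) s :=
        ((innerSL ℝ V0).hasFDerivAt.comp_hasDerivAt s e3)
      exact e4.sub ((hmot.τd s).const_mul _)
    have hmono : MonotoneOn (fun s => G (φ s y) - w ^ 2 / 2 * τ s) (Ici 0) := by
      refine monotoneOn_of_deriv_nonneg (convex_Ici 0)
        (fun s _ => (hder s).continuousAt.continuousWithinAt)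
        (fun s _ => (hder s).differentiableAt.differentiableWithinAt) ?_
      intro s hs
      rw [interior_Ici] at hs
      rw [(hder s).deriv, inner_smul_right]
      have hc := hmot.cpos s
      have e1 := hcur s (le_of_lt hs) i₀ j₀ hP₀
      rw [h0] at e1
      have e2 : ‖(cm m a b (vel m y) i₀ - cm m a b (vel m y) j₀) - V0‖ < w / 16 := hy3
      set A := cm m a b (vel m (φ s y)) i₀ - cm m a b (vel m (φ s y)) j₀
      set B := cm m a b (vel m y) i₀ - cm m a b (vel m y) j₀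
      have e3 : ‖A - V0‖ ≤ w / 8 := by
        have : A - V0 = (A - B) + (B - V0) := by abel
        rw [this]
        refine (norm_add_le _ _).trans ?_
        linarith
      have e4 : inner ℝ V0 A = ‖V0‖ ^ 2 + inner ℝ V0 (A - V0) := by
        rw [inner_sub_right V0 A V0, real_inner_self_eq_norm_sq]; ring
      have e5 : -(‖V0‖ * (w / 8)) ≤ inner ℝ V0 (A - V0) := by
        have h1 := abs_real_inner_le_norm V0 (A - V0)
        have h2 : ‖V0‖ * ‖A - V0‖ ≤ ‖V0‖ * (w / 8) := by gcongr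
        have h3 := neg_abs_le (inner ℝ V0 (A - V0))
        linarith
      have e6 : w ^ 2 / 2 ≤ inner ℝ V0 A := by
        rw [e4]
        nlinarith
      nlinarith
    have h1 := hmono (show (0:ℝ) ∈ Ici 0 from mem_Ici.mpr le_rfl) (show t ∈ Ici (0:ℝ) from mem_Ici.mpr (by linarith)) (by linarith)
    simp only [h0, hmot.τ0, mul_zero, sub_zero] at h1
    have h2 : w ^ 2 / 2 * η ≤ w ^ 2 / 2 * τ t := by gcongr
    linarith
  -- conclusion
  intro hNW
  let κ := w ^ 2 / 2 * η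
  have hκ : 0 < κ := by positivity
  let U4 : Set (Cfg N × Cfg N) := {y | |G y - G x| < κ / 2}
  have hU4 : IsOpen U4 := isOpen_lt ((hGc.sub continuous_const).abs) continuous_const
  have hxU4 : x ∈ U4 := by
    show |G x - G x| < κ / 2
    rw [sub_self, abs_zero]; positivity
  obtain ⟨t, ht, y, ⟨hyV, hyS⟩, hφy⟩ := hNW ((U1 ∩ U2 ∩ U3) ∩ V1 ∩ U4)
    ((((hU1.inter hU2).inter hU3).inter hV1o).inter hU4)
    ⟨⟨⟨⟨hxU1, hxU2⟩, hxU3⟩, hxV1⟩, hxU4⟩ s1
  have h1 := hgrow y ⟨hyV.1, hyS⟩ t ht.le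
  have h2 : |G y - G x| < κ / 2 := hyV.2
  have h3 : |G (φ t y) - G x| < κ / 2 := hφy.2
  rw [abs_lt] at h2 h3
  have h4 : κ = w ^ 2 / 2 * η := rfl
  linarith [h2.1, h2.2, h3.1, h3.2]

end Pool.Agent.Y516.NW
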